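import Pool.Agent.Run7.h434.EP.Iface

/-!
# Piece CUB of the project EP of helper434 (edge powers of convex bodies)
-/

set_option autoImplicit false

namespace Run7.h13.EP

open MeasureTheory Set Filter Topology
open Run7.h434.EP
open Run7.h523.KF (KK sv Master)
open Pool.Agent.W695.KH (Eu EV VV PerLe sec)

/-- the square of the norm of a functional -/
theorem norm_sq_dual {κ : Type} [Fintype κ] [DecidableEq κ] (l : Eu κ →L[ℝ] ℝ) :
    ‖l‖ ^ 2 = ∑ v : κ, (l (EuclideanSpace.single v 1)) ^ 2 := by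
  have h1 : ‖l‖ = ‖(InnerProductSpace.toDual ℝ (Eu κ)).symm l‖ :=
    ((InnerProductSpace.toDual ℝ (Eu κ)).symm.norm_map l).symm
  rw [h1, EuclideanSpace.norm_sq_eq]
  refine Finset.sum_congr rfl fun v _ => ?_
  rw [Real.norm_eq_abs, sq_abs]
  congr 1
  have h2 := InnerProductSpace.toDual_symm_apply (𝕜 := ℝ) (E := Eu κ)
    (x := EuclideanSpace.single v 1) (y := l)
  rw [← h2, EuclideanSpace.inner_single_right]
  simp

theorem t_CUB : S_CUB := by
  intro κ _ _ hM f hf
  set L : Set (Eu κ) := {x : Eu κ | ∀ i, |x i| ≤ 1} with hL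
  set K : Set (κ → ℝ) := KK (fun _ _ : κ × Bool => False) with hK
  have hmem : ∀ y : κ → ℝ, WithLp.toLp 2 y ∈ L ↔ y ∈ K := by
    intro y
    rw [hL, hK]
    simp only [KK, mem_ofPred_eq, false_imp_iff, implies_true, and_true, abs_le]
  have hvp := PiLp.volume_preserving_toLp κ
  have hemb : MeasurableEmbedding (WithLp.toLp 2 : (κ → ℝ) → Eu κ) :=
    (MeasurableEquiv.toLp 2 (κ → ℝ)).measurableEmbedding
  have hpre : (WithLp.toLp 2 : (κ → ℝ) → Eu κ) ⁻¹' L = K := by
    ext y; exact hmem y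
  have hKc : IsCompact K := by
    have h : K = Set.pi univ (fun _ : κ => Icc (-1 : ℝ) 1) := by
      ext y
      simp [hK, KK, Pi.le_def, forall_and]
    rw [h]
    exact isCompact_univ_pi fun _ => isCompact_Icc
  have hint : ∀ g : Eu κ → ℝ, ∫ x in L, g x = ∫ y in K, g (WithLp.toLp 2 y) := by
    intro g
    rw [← hpre, hvp.setIntegral_preimage_emb hemb]
  have hvol : volume L = volume K := by
    rw [← hpre, hvp.measure_preimage_emb hemb]
  set F : (κ → ℝ) → ℝ := fun y => f (WithLp.toLp 2 y) with hF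
  have hlin : ∀ y, HasFDerivAt (fun y : κ → ℝ => (WithLp.toLp 2 y : Eu κ))
      ((PiLp.continuousLinearEquiv 2 ℝ (fun _ : κ => ℝ)).symm : (κ → ℝ) →L[ℝ] Eu κ) y := fun y =>
    ((PiLp.continuousLinearEquiv 2 ℝ (fun _ : κ => ℝ)).symm : (κ → ℝ) →L[ℝ] Eu κ).hasFDerivAt
  have hFc : ContDiff ℝ 1 F := by
    have : ContDiff ℝ 1 (fun y : κ → ℝ => (WithLp.toLp 2 y : Eu κ)) :=
      ((PiLp.continuousLinearEquiv 2 ℝ (fun _ : κ => ℝ)).symm : (κ → ℝ) →L[ℝ] Eu κ).contDiff
    exact hf.comp this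
  have hder : ∀ y v, fderiv ℝ F y (Pi.single v 1) =
      fderiv ℝ f (WithLp.toLp 2 y) (EuclideanSpace.single v 1) := by
    intro y v
    have h1 := ((hf.differentiable one_ne_zero) (WithLp.toLp 2 y)).hasFDerivAt.comp y (hlin y)
    have h2 : fderiv ℝ F y = _ := h1.fderiv
    rw [h2]
    rfl
  have hm := hM F hFc
  have hgrad : ∫ x in L, ‖fderiv ℝ f x‖ ^ 2 =
      ∑ v : κ, ∫ y in K, 1 * (fderiv ℝ F y (Pi.single v 1)) ^ 2 := by
    rw [hint, ← integral_finsetSum]
    · refine integral_congr_ae (Eventually.of_forall fun y => ?_)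
      simp only
      rw [norm_sq_dual]
      refine Finset.sum_congr rfl fun v _ => ?_
      rw [hder, one_mul]
    · intro v _
      refine ContinuousOn.integrableOn_compact hKc (Continuous.continuousOn ?_)
      have h1 : Continuous (fun y => fderiv ℝ F y) := hFc.continuous_fderiv one_ne_zero
      exact continuous_const.mul ((h1.clm_apply continuous_const).pow 2)
  unfold VV EV
  rw [hgrad, hint, hint, hvol]
  set V := (volume K).toReal with hV
  have hV0 : 0 ≤ V := ENNReal.toReal_nonneg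
  rcases hV0.lt_or_eq with h0 | h0
  · have e1 : (∫ y in K, f (WithLp.toLp 2 y) ^ 2) / V - ((∫ y in K, f (WithLp.toLp 2 y)) / V) ^ 2 =
        ((∫ y in K, F y ^ 2) - (∫ y in K, F y) ^ 2 / V) / V := by
      rw [hF]
      field_simp
    rw [e1, ← mul_div_assoc]
    apply div_le_div_of_nonneg_right _ h0.le
    refine hm.trans (le_of_eq ?_)
    congr 1
    field_simp
  · rw [← h0]
    simp

end Run7.h13.EP
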