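import Pool.Agent.Run7.h434.EP.Iface

/-!
# Piece GEO of the project EP of helper434 (edge powers of convex bodies)
-/

set_option autoImplicit false

namespace Run7.h13.EP

open MeasureTheory Set Filter Topology
open Run7.h434.EP
open Pool.Agent.W695.KH (Eu EV VV PerLe sec)

section

variable {n : ℕ} {κ : Type} [Fintype κ]

theorem gauge_cl {L : Set (Eu κ)} (hc : Convex ℝ L) (h0 : L ∈ 𝓝 (0 : Eu κ)) :
    gauge (closure L) = gauge L := by
  have h0' : closure L ∈ 𝓝 (0 : Eu κ) := mem_of_superset h0 subset_closure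
  funext x
  apply le_antisymm
  · exact gauge_mono (absorbent_nhds_zero h0) subset_closure x
  · refine le_of_forall_gt_imp_ge_of_dense fun r hr => ?_
    have hr0 : 0 < r := lt_of_le_of_lt (gauge_nonneg x) hr
    have h1 : gauge (closure L) (r⁻¹ • x) ≤ 1 := by
      rw [gauge_smul_of_nonneg (inv_nonneg.mpr hr0.le), smul_eq_mul, inv_mul_le_iff₀ hr0, mul_one]
      exact hr.le
    have h2 := (gauge_le_one_iff_mem_closure hc.closure h0').mp h1
    rw [closure_closure] at h2
    have h3 := (gauge_le_one_iff_mem_closure hc h0).mpr h2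
    rw [gauge_smul_of_nonneg (inv_nonneg.mpr hr0.le), smul_eq_mul, inv_mul_le_iff₀ hr0,
      mul_one] at h3
    exact h3

theorem gauge_comb {L : Set (Eu κ)} (hc : Convex ℝ L) (h0 : L ∈ 𝓝 (0 : Eu κ)) (x y : Eu κ)
    {a b : ℝ} (ha : 0 ≤ a) (hb : 0 ≤ b) :
    gauge L (a • x + b • y) ≤ a * gauge L x + b * gauge L y := by
  refine (gauge_add_le hc (absorbent_nhds_zero h0) _ _).trans (le_of_eq ?_)
  rw [gauge_smul_of_nonneg ha, gauge_smul_of_nonneg hb, smul_eq_mul, smul_eq_mul]

theorem blk_apply (z : Eu (Fin n × κ)) (v : Fin n) (i : κ) : blk z v i = z (v, i) := rfl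

theorem cont_blk : Continuous (blk : Eu (Fin n × κ) → Fin n → Eu κ) := by
  refine continuous_pi fun v => (PiLp.continuous_toLp 2 _).comp (continuous_pi fun i => ?_)
  fun_prop

theorem cont_unblk : Continuous (unblk : (Fin n → Eu κ) → Eu (Fin n × κ)) := by
  refine (PiLp.continuous_toLp 2 _).comp (continuous_pi fun p => ?_)
  fun_prop

theorem blk_unblk (z : Fin n → Eu κ) : blk (unblk z) = z := rfl

theorem unblk_blk (z : Eu (Fin n × κ)) : unblk (blk z) = z := rfl

theorem blk_comb (a b : ℝ) (z w : Eu (Fin n × κ)) (v : Fin n) :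
    blk (a • z + b • w) v = a • blk z v + b • blk w v := rfl

theorem blk_smul (a : ℝ) (z : Eu (Fin n × κ)) (v : Fin n) : blk (a • z) v = a • blk z v := rfl

theorem blk_neg (z : Eu (Fin n × κ)) (v : Fin n) : blk (-z) v = -blk z v := rfl

theorem blk_zero (v : Fin n) : blk (0 : Eu (Fin n × κ)) v = 0 := rfl

theorem pow_comb (d : ℕ) {x y a b : ℝ} (hx : 0 ≤ x) (hy : 0 ≤ y) (ha : 0 ≤ a) (hb : 0 ≤ b)
    (hab : a + b = 1) : (a * x + b * y) ^ d ≤ a * x ^ d + b * y ^ d :=
  (convexOn_pow d).2 hx hy ha hb hab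

theorem EP_closed (adj : Fin n → Fin n → Prop) {L : Set (Eu κ)} (hc : Convex ℝ L)
    (h0 : L ∈ 𝓝 (0 : Eu κ)) : IsClosed (EP adj L) := by
  have hg : ∀ v, Continuous (fun z : Fin n → Eu κ => gauge L (z v)) := fun v =>
    (continuous_gauge hc h0).comp (continuous_apply v)
  have h : EP adj L = (⋂ v, {z : Fin n → Eu κ | gauge L (z v) ≤ 1}) ∩
      ⋂ v, ⋂ w, ⋂ (_ : adj v w), {z : Fin n → Eu κ |
        gauge L (z v) ^ Fintype.card κ + gauge L (z w) ^ Fintype.card κ ≤ 1} := by
    ext z; simp [EP]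
  rw [h]
  refine (isClosed_iInter fun v => isClosed_le (hg v) continuous_const).inter
    (isClosed_iInter fun v => isClosed_iInter fun w => isClosed_iInter fun _ =>
      isClosed_le (((hg v).pow _).add ((hg w).pow _)) continuous_const)

theorem epo_open (adj : Fin n → Fin n → Prop) {L : Set (Eu κ)} (hc : Convex ℝ L)
    (h0 : L ∈ 𝓝 (0 : Eu κ)) : IsOpen (epo adj L) := by
  have hg : ∀ v, Continuous (fun z : Eu (Fin n × κ) => gauge L (blk z v)) := fun v =>
    (continuous_gauge hc h0).comp ((continuous_apply v).comp cont_blk)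
  have h : epo adj L = (⋂ v, {z : Eu (Fin n × κ) | gauge L (blk z v) < 1}) ∩
      ⋂ v, ⋂ w, {z : Eu (Fin n × κ) | adj v w →
        gauge L (blk z v) ^ Fintype.card κ + gauge L (blk z w) ^ Fintype.card κ < 1} := by
    ext z; simp [epo]
  rw [h]
  refine (isOpen_iInter_of_finite fun v => isOpen_lt (hg v) continuous_const).inter
    (isOpen_iInter_of_finite fun v => isOpen_iInter_of_finite fun w => ?_)
  by_cases hvw : adj v w
  · simp only [hvw, forall_true_left]
    exact isOpen_lt (((hg v).pow _).add ((hg w).pow _)) continuous_const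
  · simp [hvw]

theorem epo_zero [Nonempty κ] (adj : Fin n → Fin n → Prop) (L : Set (Eu κ)) :
    (0 : Eu (Fin n × κ)) ∈ epo adj L := by
  have hd : Fintype.card κ ≠ 0 := Fintype.card_ne_zero
  refine ⟨fun v => ?_, fun v w _ => ?_⟩
  · rw [blk_zero, gauge_zero]; norm_num
  · rw [blk_zero, blk_zero, gauge_zero, zero_pow hd]; norm_num

theorem epo_sub (adj : Fin n → Fin n → Prop) (L : Set (Eu κ)) : epo adj L ⊆ ep adj L :=
  fun _ hz => ⟨fun v => (hz.1 v).le, fun v w h => (hz.2 v w h).le⟩

theorem ep_convex (adj : Fin n → Fin n → Prop) {L : Set (Eu κ)} (hc : Convex ℝ L)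
    (h0 : L ∈ 𝓝 (0 : Eu κ)) : Convex ℝ (ep adj L) := by
  intro z hz w hw a b ha hb hab
  have key : ∀ v, gauge L (blk (a • z + b • w) v) ≤
      a * gauge L (blk z v) + b * gauge L (blk w v) := fun v => by
    rw [blk_comb]; exact gauge_comb hc h0 _ _ ha hb
  have key2 : ∀ v, gauge L (blk (a • z + b • w) v) ^ Fintype.card κ ≤
      a * gauge L (blk z v) ^ Fintype.card κ + b * gauge L (blk w v) ^ Fintype.card κ := fun v =>
    (pow_le_pow_left₀ (gauge_nonneg _) (key v) _).trans
      (pow_comb _ (gauge_nonneg _) (gauge_nonneg _) ha hb hab)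
  refine ⟨fun v => ?_, fun v u h => ?_⟩
  · have h1 := hz.1 v
    have h2 := hw.1 v
    have := key v
    nlinarith
  · have h1 := hz.2 v u h
    have h2 := hw.2 v u h
    have k1 := key2 v
    have k2 := key2 u
    nlinarith

theorem comb_lt {a b x y : ℝ} (ha : 0 ≤ a) (hb : 0 ≤ b) (hab : a + b = 1) (hx : x < 1)
    (hy : y < 1) : a * x + b * y < 1 := by
  rcases ha.lt_or_eq with h | h
  · nlinarith
  · have : b = 1 := by linarith
    rw [← h, this]; linarith

theorem epo_convex (adj : Fin n → Fin n → Prop) {L : Set (Eu κ)} (hc : Convex ℝ L)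
    (h0 : L ∈ 𝓝 (0 : Eu κ)) : Convex ℝ (epo adj L) := by
  intro z hz w hw a b ha hb hab
  have key : ∀ v, gauge L (blk (a • z + b • w) v) ≤
      a * gauge L (blk z v) + b * gauge L (blk w v) := fun v => by
    rw [blk_comb]; exact gauge_comb hc h0 _ _ ha hb
  have key2 : ∀ v, gauge L (blk (a • z + b • w) v) ^ Fintype.card κ ≤
      a * gauge L (blk z v) ^ Fintype.card κ + b * gauge L (blk w v) ^ Fintype.card κ := fun v =>
    (pow_le_pow_left₀ (gauge_nonneg _) (key v) _).trans
      (pow_comb _ (gauge_nonneg _) (gauge_nonneg _) ha hb hab)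
  refine ⟨fun v => (key v).trans_lt (comb_lt ha hb hab (hz.1 v) (hw.1 v)), fun v u h => ?_⟩
  have h1 := comb_lt ha hb hab (hz.2 v u h) (hw.2 v u h)
  have k1 := key2 v
  have k2 := key2 u
  nlinarith

theorem EP_compact (adj : Fin n → Fin n → Prop) {L : Set (Eu κ)} (hL : IsCompact L)
    (hc : Convex ℝ L) (h0 : L ∈ 𝓝 (0 : Eu κ)) : IsCompact (EP adj L) := by
  refine (isCompact_univ_pi (fun _ : Fin n => hL)).of_isClosed_subset (EP_closed adj hc h0) ?_
  intro z hz v _
  have h1 := (gauge_le_one_iff_mem_closure hc h0).mp (hz.1 v)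
  rwa [hL.isClosed.closure_eq] at h1

theorem ep_compact (adj : Fin n → Fin n → Prop) {L : Set (Eu κ)} (hL : IsCompact L)
    (hc : Convex ℝ L) (h0 : L ∈ 𝓝 (0 : Eu κ)) : IsCompact (ep adj L) := by
  have h : ep adj L = unblk '' EP adj L := by
    ext z
    constructor
    · intro hz
      exact ⟨blk z, hz, unblk_blk z⟩
    · rintro ⟨w, hw, rfl⟩
      exact hw
  rw [h]
  exact (EP_compact adj hL hc h0).image cont_unblk

end

theorem t_GEO : S_GEO := by
  constructor
  · intro n κ _ _ adj L hB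
    have h0 : L ∈ 𝓝 (0 : Eu κ) := mem_interior_iff_mem_nhds.mp hB.zero
    refine ⟨EP_compact adj hB.comp hB.conv h0, ep_compact adj hB.comp hB.conv h0,
      ep_convex adj hB.conv h0, ?_⟩
    exact mem_interior.mpr ⟨epo adj L, epo_sub adj L, epo_open adj hB.conv h0, epo_zero adj L⟩
  · intro n κ _ _ adj L hLo hc hb h0L
    have h0 : L ∈ 𝓝 (0 : Eu κ) := hLo.mem_nhds h0L
    have h0' : closure L ∈ 𝓝 (0 : Eu κ) := mem_of_superset h0 subset_closure
    have hcomp : IsCompact (closure L) := hb.isCompact_closure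
    have hBody : Body (closure L) :=
      ⟨hcomp, hc.closure, mem_interior_iff_mem_nhds.mpr h0'⟩
    have hepo : epo adj (closure L) = epo adj L := by
      unfold epo
      rw [gauge_cl hc h0]
    have hsub : epo adj L ⊆ ep adj (closure L) := by
      rw [← hepo]; exact epo_sub adj _
    have hK := ep_compact adj hcomp hc.closure h0'
    refine ⟨hBody, epo_open adj hc h0, epo_convex adj hc h0, hK.isBounded.subset hsub,
      epo_zero adj L, ?_, ?_⟩
    · apply Subset.antisymm
      · exact closure_minimal hsub hK.isClosed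
      · intro z hz
        have hd : Fintype.card κ ≠ 0 := Fintype.card_ne_zero
        have ht : Tendsto (fun r : ℝ => r • z) (𝓝[<] 1) (𝓝 z) := by
          have h1 : Tendsto (fun r : ℝ => r • z) (𝓝 1) (𝓝 ((1 : ℝ) • z)) :=
            (continuous_id.smul continuous_const).tendsto 1
          rw [one_smul] at h1
          exact h1.mono_left nhdsWithin_le_nhds
        refine mem_closure_of_tendsto ht ?_
        have h2 : ∀ᶠ r : ℝ in 𝓝[<] 1, r ∈ Ioo (0 : ℝ) 1 := Ioo_mem_nhdsLT one_pos
        filter_upwards [h2] with r hr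
        rw [← hepo]
        have hg : ∀ v, gauge (closure L) (blk (r • z) v) = r * gauge (closure L) (blk z v) := by
          intro v
          rw [blk_smul, gauge_smul_of_nonneg hr.1.le, smul_eq_mul]
        refine ⟨fun v => ?_, fun v w h => ?_⟩
        · rw [hg]
          have h1 := hz.1 v
          have h3 : 0 ≤ gauge (closure L) (blk z v) := gauge_nonneg _
          nlinarith [hr.1, hr.2]
        · rw [hg, hg, mul_pow, mul_pow, ← mul_add]
          have h1 := hz.2 v w h
          have h3 : r ^ Fintype.card κ < 1 := pow_lt_one₀ hr.1.le hr.2 hd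
          have h4 : 0 < r ^ Fintype.card κ := pow_pos hr.1 _
          have h5 : 0 ≤ gauge (closure L) (blk z v) ^ Fintype.card κ := pow_nonneg (gauge_nonneg _) _
          have h6 : 0 ≤ gauge (closure L) (blk z w) ^ Fintype.card κ := pow_nonneg (gauge_nonneg _) _
          nlinarith
    · intro hs z hz
      refine ⟨fun v => ?_, fun v w h => ?_⟩
      · rw [blk_neg, gauge_neg hs]
        exact hz.1 v
      · rw [blk_neg, blk_neg, gauge_neg hs, gauge_neg hs]
        exact hz.2 v w h

end Run7.h13.EP
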